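import Mathlib

/-!
# Stable graphs with bounded defect are bounded

An elementary proof that a graph which is critical for its independence number `a`, keeps its
independence number after the deletion of any three vertices and has at most `2 a + δ` vertices has
a number of vertices bounded in terms of `δ`.
-/

set_option autoImplicit false
set_option linter.unusedSectionVars false

namespace Pool.Agent.V11130.Stable

open Finset

/-! ### A Ramsey lemma for symmetric use, with three colours -/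

theorem ramsey_seq {α : Type} [DecidableEq α] (col : α → α → Fin 3) (t : ℕ) :
    ∀ s : Finset α, 4 ^ t ≤ s.card → ∃ l : List (α × Fin 3), l.length = t ∧
      (∀ p ∈ l, p.1 ∈ s) ∧ l.Pairwise (fun p q => p.1 ≠ q.1 ∧ col p.1 q.1 = p.2) := by
  induction t with
  | zero => intro s _; exact ⟨[], rfl, by simp, List.Pairwise.nil⟩
  | succ t ih =>
    intro s hs
    have hpos : 0 < 4 ^ t := by positivity
    rw [pow_succ] at hs
    obtain ⟨a, ha⟩ : s.Nonempty := by
      rw [← Finset.card_pos]; omega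
    have hc : (s.erase a).card = s.card - 1 := Finset.card_erase_of_mem ha
    obtain ⟨c, hc2⟩ : ∃ c : Fin 3, 4 ^ t ≤ ((s.erase a).filter fun b => col a b = c).card := by
      by_contra hcon
      push Not at hcon
      have hsum : (s.erase a).card = ∑ c : Fin 3, ((s.erase a).filter fun b => col a b = c).card :=
        Finset.card_eq_sum_card_fiberwise (fun x _ => by simp)
      have : ∑ c : Fin 3, ((s.erase a).filter fun b => col a b = c).card ≤ ∑ _c : Fin 3, (4 ^ t - 1) := by
        apply Finset.sum_le_sum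
        intro c _
        have := hcon c
        omega
      simp only [Finset.sum_const, Finset.card_univ, Fintype.card_fin, smul_eq_mul] at this
      omega
    obtain ⟨l, hl1, hl2, hl3⟩ := ih _ hc2
    refine ⟨(a, c) :: l, by simp [hl1], ?_, ?_⟩
    · intro p hp
      rcases List.mem_cons.mp hp with rfl | hp
      · exact ha
      · have := hl2 p hp
        rw [mem_filter, mem_erase] at this
        exact this.1.2
    · rw [List.pairwise_cons]
      refine ⟨?_, hl3⟩
      intro q hq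
      have := hl2 q hq
      rw [mem_filter, mem_erase] at this
      exact ⟨Ne.symm this.1.1, this.2⟩

/-- Ramsey's theorem for three colours; the colour of a pair is read in the order of the list -/
theorem ramsey {α : Type} [DecidableEq α] (col : α → α → Fin 3) (m : ℕ) (s : Finset α)
    (hs : 4 ^ (3 * m) ≤ s.card) : ∃ (c : Fin 3) (l : List α), m ≤ l.length ∧ (∀ x ∈ l, x ∈ s) ∧
      l.Pairwise (fun x y => x ≠ y ∧ col x y = c) := by
  obtain ⟨l, hl1, hl2, hl3⟩ := ramsey_seq col (3 * m) s hs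
  obtain ⟨c, hc⟩ : ∃ c : Fin 3, m ≤ (l.filter fun p => p.2 = c).length := by
    by_contra hcon
    push Not at hcon
    have hsum : l.length = (l.filter fun p => p.2 = 0).length + (l.filter fun p => p.2 = 1).length +
        (l.filter fun p => p.2 = 2).length := by
      clear hl1 hl2 hl3 hcon
      induction l with
      | nil => simp
      | cons p l ih =>
        obtain ⟨x, c⟩ := p
        fin_cases c <;> simp [ih] <;> omega
    have h0 := hcon 0
    have h1 := hcon 1
    have h2 := hcon 2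
    omega
  refine ⟨c, (l.filter fun p => p.2 = c).map Prod.fst, by simpa using hc, ?_, ?_⟩
  · intro x hx
    rw [List.mem_map] at hx
    obtain ⟨p, hp, rfl⟩ := hx
    exact hl2 p (List.mem_of_mem_filter hp)
  · rw [List.pairwise_map]
    have h := hl3.filter (fun p => decide (p.2 = c))
    refine List.Pairwise.imp_of_mem ?_ h
    intro p q hp _ hpq
    have : p.2 = c := by simpa using List.of_mem_filter hp
    rw [← this]
    exact hpq

/-! ### Critical graphs -/

section Crit

variable {V : Type} [Fintype V] [DecidableEq V] (G : SimpleGraph V)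

/-- independent sets -/
def Ind (S : Finset V) : Prop := ∀ x ∈ S, ∀ y ∈ S, ¬ G.Adj x y

/-- a graph with independence number `a`, critical for edge deletion and such that any three vertices
are avoided by a largest independent set -/
structure Crit (a : ℕ) : Prop where
  ub : ∀ S, Ind G S → S.card ≤ a
  av : ∀ S : Finset V, S.card ≤ 3 → ∃ T, Ind G T ∧ T.card = a ∧ Disjoint T S
  cr : ∀ x y, G.Adj x y → ∃ R : Finset V, x ∉ R ∧ y ∉ R ∧ R.card + 1 = a ∧ Ind G (insert x R) ∧
    Ind G (insert y R)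

variable {G}

theorem Ind.mono {S T : Finset V} (hT : Ind G T) (h : S ⊆ T) : Ind G S :=
  fun x hx y hy => hT x (h hx) y (h hy)

open scoped Classical in
variable (G) in
/-- neighbourhood of a set -/
noncomputable def nbr (X : Finset V) : Finset V := univ.filter fun v => ∃ x ∈ X, G.Adj x v

theorem mem_nbr {X : Finset V} {v : V} : v ∈ nbr G X ↔ ∃ x ∈ X, G.Adj x v := by
  simp [nbr]

theorem nbr_mono {X Y : Finset V} (h : X ⊆ Y) : nbr G X ⊆ nbr G Y := by
  intro v hv
  rw [mem_nbr] at hv ⊢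
  obtain ⟨x, hx, hxv⟩ := hv
  exact ⟨x, h hx, hxv⟩

theorem nbr_union (X Y : Finset V) : nbr G (X ∪ Y) = nbr G X ∪ nbr G Y := by
  ext v
  simp only [mem_nbr, mem_union]
  constructor
  · rintro ⟨x, hx | hx, h⟩
    · exact Or.inl ⟨x, hx, h⟩
    · exact Or.inr ⟨x, hx, h⟩
  · rintro (⟨x, hx, h⟩ | ⟨x, hx, h⟩)
    · exact ⟨x, Or.inl hx, h⟩
    · exact ⟨x, Or.inr hx, h⟩

theorem Ind.swap {I X : Finset V} (hI : Ind G I) (hX : Ind G X) : Ind G ((I \ nbr G X) ∪ X) := by
  intro x hx y hy hxy
  rw [mem_union, mem_sdiff, mem_nbr] at hx hy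
  rcases hx with ⟨hx, hx2⟩ | hx <;> rcases hy with ⟨hy, hy2⟩ | hy
  · exact hI x hx y hy hxy
  · exact hx2 ⟨y, hy, hxy.symm⟩
  · exact hy2 ⟨x, hx, hxy⟩
  · exact hX x hx y hy hxy

/-- the Hall property of independent sets -/
theorem Crit.hall {a : ℕ} (h : Crit G a) : ∀ (k : ℕ) (X : Finset V), X.card = k → Ind G X →
    X.card ≤ (nbr G X).card := by
  intro k
  induction k using Nat.strong_induction_on with
  | _ k ih =>
    intro X hk hX
    rcases X.eq_empty_or_nonempty with rfl | ⟨x, hx⟩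
    · simp
    obtain ⟨I, hI, hIa, hdis⟩ := h.av {x} (by simp)
    have hxI : x ∉ I := by
      rw [Finset.disjoint_singleton_right] at hdis; exact hdis
    have hYlt : (X ∩ I).card < X.card := by
      apply Finset.card_lt_card
      refine ⟨Finset.inter_subset_left, fun hsub => hxI ?_⟩
      exact Finset.inter_subset_right (hsub hx)
    have hY := ih _ (by omega) (X ∩ I) rfl (hX.mono Finset.inter_subset_left)
    have h1 := h.ub _ (hI.swap hX)
    -- sizes
    have h2 : ((I \ nbr G X) ∪ X).card = (I \ nbr G X).card + (X \ I).card := by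
      rw [← Finset.card_union_of_disjoint]
      · congr 1
        ext z
        simp only [mem_union, mem_sdiff]
        constructor
        · rintro (hz | hz)
          · exact Or.inl hz
          · by_cases hzI : z ∈ I
            · left
              refine ⟨hzI, fun hz2 => ?_⟩
              rw [mem_nbr] at hz2
              obtain ⟨w, hw, hwz⟩ := hz2
              exact hX w hw z hz hwz
            · exact Or.inr ⟨hz, hzI⟩
        · rintro (hz | hz)
          · exact Or.inl hz
          · exact Or.inr hz.1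
      · rw [Finset.disjoint_left]
        intro z hz hz2
        rw [mem_sdiff] at hz hz2
        exact hz2.2 hz.1
    have h3 : (I \ nbr G X).card + (I ∩ nbr G X).card = I.card := Finset.card_sdiff_add_card_inter _ _
    have h4 : (X \ I).card + (X ∩ I).card = X.card := Finset.card_sdiff_add_card_inter _ _
    have h5 : (nbr G (X ∩ I)).card + (I ∩ nbr G X).card ≤ (nbr G X).card := by
      rw [← Finset.card_union_of_disjoint]
      · apply Finset.card_le_card
        apply Finset.union_subset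
        · exact nbr_mono Finset.inter_subset_left
        · exact Finset.inter_subset_right
      · rw [Finset.disjoint_left]
        intro z hz hz2
        rw [mem_nbr] at hz
        rw [mem_inter] at hz2
        obtain ⟨w, hw, hwz⟩ := hz
        rw [mem_inter] at hw
        exact hI w hw.2 z hz2.1 hwz
    omega

theorem Crit.hall' {a : ℕ} (h : Crit G a) {X : Finset V} (hX : Ind G X) : X.card ≤ (nbr G X).card :=
  h.hall _ X rfl hX

/-- every vertex has three neighbours -/
theorem Crit.deg {a : ℕ} (h : Crit G a) (y : V) : ∃ x₁ x₂ x₃, G.Adj y x₁ ∧ G.Adj y x₂ ∧ G.Adj y x₃ ∧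
    x₁ ≠ x₂ ∧ x₁ ≠ x₃ ∧ x₂ ≠ x₃ := by
  have h2 : 2 < (nbr G {y}).card := by
    by_contra hcon
    push Not at hcon
    obtain ⟨T, hT, hTa, hdis⟩ := h.av (insert y (nbr G {y})) ((Finset.card_insert_le _ _).trans (by omega))
    rw [Finset.disjoint_left] at hdis
    have hyT : y ∉ T := fun hy => hdis hy (mem_insert_self _ _)
    have hind : Ind G (insert y T) := by
      intro u hu v hv huv
      rw [mem_insert] at hu hv
      rcases hu with rfl | hu <;> rcases hv with rfl | hv
      · exact G.irrefl huv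
      · exact hdis hv (mem_insert_of_mem (mem_nbr.mpr ⟨u, mem_singleton_self _, huv⟩))
      · exact hdis hu (mem_insert_of_mem (mem_nbr.mpr ⟨v, mem_singleton_self _, huv.symm⟩))
      · exact hT u hu v hv huv
    have := h.ub _ hind
    rw [Finset.card_insert_of_notMem hyT] at this
    omega
  rw [Finset.two_lt_card] at h2
  obtain ⟨x1, h1, x2, h2, x3, h3, h12, h13, h23⟩ := h2
  simp only [mem_nbr, mem_singleton, exists_eq_left] at h1 h2 h3
  exact ⟨x1, x2, x3, h1, h2, h3, h12, h13, h23⟩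

/-! ### Few edges outside a largest independent set -/

theorem edges_aux {ι : Type} [DecidableEq ι] (T : Finset V) :
    ∀ (d : ℕ) (W : Finset V) (J : Finset ι) (u v : ι → V) (Z : ι → Finset V),
    (∀ Z' ⊆ W, Z'.card ≤ (T ∩ nbr G Z').card + d) →
    (∀ i ∈ J, Z i ⊆ W ∧ u i ∈ Z i ∧ v i ∈ Z i ∧ (T ∩ nbr G (Z i)).card + 1 ≤ (Z i).card ∧
      ∀ Z' ⊆ Z i, (u i ∉ Z' ∨ v i ∉ Z') → Z'.card ≤ (T ∩ nbr G Z').card) →
    (∀ i ∈ J, ∀ j ∈ J, i ≠ j → u i ∉ Z j ∨ v i ∉ Z j) → J.card + 1 ≤ 2 ^ d := by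
  intro d
  induction d with
  | zero =>
    intro W J u v Z hW hJ _
    rcases J.eq_empty_or_nonempty with rfl | ⟨i, hi⟩
    · simp
    · have h1 := hJ i hi
      have h2 := hW (Z i) h1.1
      have h3 := h1.2.2.2.1
      omega
  | succ d ih =>
    intro W J u v Z hW hJ hd
    rcases J.eq_empty_or_nonempty with rfl | ⟨i, hi⟩
    · simp only [card_empty, zero_add]
      exact Nat.one_le_two_pow
    obtain ⟨g1, g2, g3, g4, g5⟩ := hJ i hi
    -- the universe loses one unit of nullity
    have key : ∀ e : V, (e = u i ∨ e = v i) → ∀ Z' ⊆ W.erase e, Z'.card ≤ (T ∩ nbr G Z').card + d := by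
      intro e he Z' hZ'
      have he' : e ∉ Z' := fun h => (mem_erase.mp (hZ' h)).1 rfl
      have k1 := hW (Z' ∪ Z i) (Finset.union_subset (hZ'.trans (Finset.erase_subset _ _)) g1)
      have k2 := g5 (Z' ∩ Z i) Finset.inter_subset_right (by
        rcases he with rfl | rfl
        · left; exact fun h => he' (mem_inter.mp h).1
        · right; exact fun h => he' (mem_inter.mp h).1)
      have k3 : (T ∩ nbr G (Z' ∪ Z i)).card + (T ∩ nbr G (Z' ∩ Z i)).card ≤
          (T ∩ nbr G Z').card + (T ∩ nbr G (Z i)).card := by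
        rw [nbr_union, Finset.inter_union_distrib_left, ← Finset.card_union_add_card_inter (T ∩ nbr G Z')]
        apply Nat.add_le_add_left
        apply Finset.card_le_card
        intro z hz
        rw [mem_inter] at hz
        rw [mem_inter, mem_inter, mem_inter]
        exact ⟨⟨hz.1, nbr_mono Finset.inter_subset_left hz.2⟩, hz.1, nbr_mono Finset.inter_subset_right hz.2⟩
      have k4 : (Z' ∪ Z i).card + (Z' ∩ Z i).card = Z'.card + (Z i).card := Finset.card_union_add_card_inter _ _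
      omega
    have hu := ih (W.erase (u i)) (J.filter fun j => u i ∉ Z j) u v Z (key _ (Or.inl rfl)) (by
      intro j hj
      rw [mem_filter] at hj
      obtain ⟨f1, f2⟩ := hJ j hj.1
      refine ⟨?_, f2⟩
      intro z hz
      rw [mem_erase]
      exact ⟨fun h => hj.2 (h ▸ hz), f1 hz⟩) (by
      intro j hj l hl hjl
      exact hd j (mem_filter.mp hj).1 l (mem_filter.mp hl).1 hjl)
    have hv := ih (W.erase (v i)) (J.filter fun j => v i ∉ Z j) u v Z (key _ (Or.inr rfl)) (by
      intro j hj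
      rw [mem_filter] at hj
      obtain ⟨f1, f2⟩ := hJ j hj.1
      refine ⟨?_, f2⟩
      intro z hz
      rw [mem_erase]
      exact ⟨fun h => hj.2 (h ▸ hz), f1 hz⟩) (by
      intro j hj l hl hjl
      exact hd j (mem_filter.mp hj).1 l (mem_filter.mp hl).1 hjl)
    have hsub : J ⊆ {i} ∪ ((J.filter fun j => u i ∉ Z j) ∪ (J.filter fun j => v i ∉ Z j)) := by
      intro j hj
      by_cases hij : j = i
      · subst hij; simp
      · rw [mem_union, mem_union, mem_filter, mem_filter]
        right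
        rcases hd i hi j hj (Ne.symm hij) with h | h
        · exact Or.inl ⟨hj, h⟩
        · exact Or.inr ⟨hj, h⟩
    have h1 := Finset.card_le_card hsub
    have h2 := Finset.card_union_le {i} ((J.filter fun j => u i ∉ Z j) ∪ (J.filter fun j => v i ∉ Z j))
    have h3 := Finset.card_union_le (J.filter fun j => u i ∉ Z j) (J.filter fun j => v i ∉ Z j)
    rw [Finset.card_singleton] at h2
    rw [pow_succ]
    omega

/-- a family of pairwise different edges outside a largest independent set is small -/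
theorem Crit.edges {a δ : ℕ} (h : Crit G a) (hδ : Fintype.card V ≤ 2 * a + δ) {T : Finset V}
    (hT : Ind G T) (hTa : T.card = a) {ι : Type} [DecidableEq ι] (J : Finset ι) (u v : ι → V)
    (hJ : ∀ i ∈ J, G.Adj (u i) (v i) ∧ u i ∉ T ∧ v i ∉ T)
    (hd : ∀ i ∈ J, ∀ j ∈ J, i ≠ j → s(u i, v i) ≠ s(u j, v j)) : J.card + 1 ≤ 2 ^ δ := by
  have hR : ∀ i, ∃ R : Finset V, i ∈ J → (u i ∉ R ∧ v i ∉ R ∧ R.card + 1 = a ∧ Ind G (insert (u i) R) ∧
      Ind G (insert (v i) R)) := by
    intro i
    by_cases hi : i ∈ J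
    · obtain ⟨R, h1⟩ := h.cr _ _ (hJ i hi).1
      exact ⟨R, fun _ => h1⟩
    · exact ⟨∅, fun h => absurd h hi⟩
  choose R hR using hR
  apply edges_aux (G := G) T δ (univ \ T) J u v (fun i => (insert (u i) (insert (v i) (R i))) \ T)
  · intro Z' hZ'
    have h1 := h.hall' (X := T \ nbr G Z') (hT.mono Finset.sdiff_subset)
    have h2 : (nbr G (T \ nbr G Z')).card + Z'.card + T.card ≤ Fintype.card V := by
      rw [← Finset.card_univ, ← Finset.card_union_of_disjoint, ← Finset.card_union_of_disjoint]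
      · exact Finset.card_le_card (Finset.subset_univ _)
      · rw [Finset.disjoint_left]
        intro z hz hz2
        rcases mem_union.mp hz with hz | hz
        · rw [mem_nbr] at hz
          obtain ⟨w, hw, hwz⟩ := hz
          exact hT w (mem_sdiff.mp hw).1 z hz2 hwz
        · exact (mem_sdiff.mp (hZ' hz)).2 hz2
      · rw [Finset.disjoint_left]
        intro z hz hz2
        rw [mem_nbr] at hz
        obtain ⟨w, hw, hwz⟩ := hz
        rw [mem_sdiff, mem_nbr] at hw
        exact hw.2 ⟨z, hz2, hwz.symm⟩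
    have h3 : (T \ nbr G Z').card + (T ∩ nbr G Z').card = T.card := Finset.card_sdiff_add_card_inter _ _
    omega
  · intro i hi
    obtain ⟨r1, r2, r3, r4, r5⟩ := hR i hi
    obtain ⟨j1, j2, j3⟩ := hJ i hi
    refine ⟨?_, ?_, ?_, ?_, ?_⟩
    · exact Finset.sdiff_subset_sdiff (Finset.subset_univ _) subset_rfl
    · rw [mem_sdiff]; exact ⟨mem_insert_self _ _, j2⟩
    · rw [mem_sdiff]; exact ⟨mem_insert_of_mem (mem_insert_self _ _), j3⟩
    · have h1 : ((insert (u i) (insert (v i) (R i))) \ T).card = (R i \ T).card + 2 := by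
        have : (insert (u i) (insert (v i) (R i))) \ T = insert (u i) (insert (v i) (R i \ T)) := by
          rw [Finset.insert_sdiff_of_notMem _ j2, Finset.insert_sdiff_of_notMem _ j3]
        rw [this, Finset.card_insert_of_notMem, Finset.card_insert_of_notMem]
        · exact fun hh => r2 (mem_sdiff.mp hh).1
        · rw [mem_insert, not_or]
          exact ⟨j1.ne, fun hh => r1 (mem_sdiff.mp hh).1⟩
      have h2 : (R i ∩ T).card + (T ∩ nbr G ((insert (u i) (insert (v i) (R i))) \ T)).card ≤ T.card := by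
        rw [← Finset.card_union_of_disjoint]
        · apply Finset.card_le_card
          exact Finset.union_subset Finset.inter_subset_right Finset.inter_subset_left
        · rw [Finset.disjoint_left]
          intro z hz hz2
          rw [mem_inter] at hz hz2
          rw [mem_nbr] at hz2
          obtain ⟨w, hw, hwz⟩ := hz2.2
          rw [mem_sdiff, mem_insert, mem_insert] at hw
          rcases hw.1 with rfl | rfl | hw1
          · exact r4 _ (mem_insert_self _ _) z (mem_insert_of_mem hz.1) hwz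
          · exact r5 _ (mem_insert_self _ _) z (mem_insert_of_mem hz.1) hwz
          · exact r4 w (mem_insert_of_mem hw1) z (mem_insert_of_mem hz.1) hwz
      have h3 : (R i \ T).card + (R i ∩ T).card = (R i).card := Finset.card_sdiff_add_card_inter _ _
      rw [h1]
      omega
    · intro Z' hZ' huv
      have hind : Ind G Z' := by
        rcases huv with hu | hv
        · apply r5.mono
          intro z hz
          have := hZ' hz
          rw [mem_sdiff, mem_insert] at this
          rcases this.1 with rfl | h1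
          · exact absurd hz hu
          · exact h1
        · apply r4.mono
          intro z hz
          have := hZ' hz
          rw [mem_sdiff, mem_insert, mem_insert] at this
          rcases this.1 with rfl | rfl | h1
          · exact mem_insert_self _ _
          · exact absurd hz hv
          · exact mem_insert_of_mem h1
      have h1 := h.ub _ (hT.swap hind)
      have h2 : ((T \ nbr G Z') ∪ Z').card = (T \ nbr G Z').card + Z'.card := by
        apply Finset.card_union_of_disjoint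
        rw [Finset.disjoint_left]
        intro z hz hz2
        exact (mem_sdiff.mp (hZ' hz2)).2 (mem_sdiff.mp hz).1
      have h3 : (T \ nbr G Z').card + (T ∩ nbr G Z').card = T.card := Finset.card_sdiff_add_card_inter _ _
      omega
  · intro i hi j hj hij
    obtain ⟨r1, r2, r3, r4, r5⟩ := hR j hj
    obtain ⟨j1, j2, j3⟩ := hJ i hi
    by_contra hcon
    push Not at hcon
    obtain ⟨c1, c2⟩ := hcon
    simp only [mem_sdiff, mem_insert] at c1 c2
    have hne := hd i hi j hj hij
    rw [Ne, Sym2.eq_iff] at hne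
    push Not at hne
    rcases c1.1 with e1 | e1 | e1 <;> rcases c2.1 with e2 | e2 | e2
    · exact j1.ne (e1.trans e2.symm)
    · exact hne.1 e1 e2
    · exact r4 (u i) (e1 ▸ mem_insert_self _ _) (v i) (mem_insert_of_mem e2) j1
    · exact hne.2 e1 e2
    · exact j1.ne (e1.trans e2.symm)
    · exact r5 (u i) (e1 ▸ mem_insert_self _ _) (v i) (mem_insert_of_mem e2) j1
    · exact r4 (u i) (mem_insert_of_mem e1) (v i) (e2 ▸ mem_insert_self _ _) j1
    · exact r5 (u i) (mem_insert_of_mem e1) (v i) (e2 ▸ mem_insert_self _ _) j1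
    · exact r4 (u i) (mem_insert_of_mem e1) (v i) (mem_insert_of_mem e2) j1

/-! ### Closed sets -/

/-- the weight of `D`: the size of the set `(P ∩ D) ∪ (Pᶜ \ D)` -/
def w (P D : Finset V) : ℕ := (P ∩ D).card + (univ \ (P ∪ D)).card

variable (G) in
/-- `D` contains all neighbours of its elements in `P` -/
def Closed (P D : Finset V) : Prop := ∀ x ∈ P, x ∈ D → ∀ v, G.Adj x v → v ∈ D

open scoped Classical in
variable (G) in
/-- vertices outside `P` with a neighbour outside `P` -/
noncomputable def FF (P : Finset V) : Finset V := univ.filter fun v => v ∉ P ∧ ∃ u, u ∉ P ∧ G.Adj v u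

theorem mem_FF {P : Finset V} {v : V} : v ∈ FF G P ↔ v ∉ P ∧ ∃ u, u ∉ P ∧ G.Adj v u := by
  simp [FF]

theorem w_mod (P D E : Finset V) : w P (D ∩ E) + w P (D ∪ E) = w P D + w P E := by
  have h1 : (P ∩ (D ∩ E)).card + (P ∩ (D ∪ E)).card = (P ∩ D).card + (P ∩ E).card := by
    have e1 : P ∩ (D ∩ E) = (P ∩ D) ∩ (P ∩ E) := by ext; simp only [mem_inter]; tauto
    have e2 : P ∩ (D ∪ E) = (P ∩ D) ∪ (P ∩ E) := by ext; simp only [mem_inter, mem_union]; tauto
    rw [e1, e2, add_comm]
    exact Finset.card_union_add_card_inter _ _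
  have h2 : (univ \ (P ∪ (D ∩ E))).card + (univ \ (P ∪ (D ∪ E))).card =
      (univ \ (P ∪ D)).card + (univ \ (P ∪ E)).card := by
    have e1 : univ \ (P ∪ (D ∩ E)) = (univ \ (P ∪ D)) ∪ (univ \ (P ∪ E)) := by
      ext; simp only [mem_inter, mem_union, mem_sdiff, mem_univ, true_and]; tauto
    have e2 : univ \ (P ∪ (D ∪ E)) = (univ \ (P ∪ D)) ∩ (univ \ (P ∪ E)) := by
      ext; simp only [mem_inter, mem_union, mem_sdiff, mem_univ, true_and]; tauto
    rw [e1, e2]
    exact Finset.card_union_add_card_inter _ _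
  unfold w
  omega

theorem Closed.inter {P D E : Finset V} (hD : Closed G P D) (hE : Closed G P E) : Closed G P (D ∩ E) := by
  intro x hx hxD v hv
  rw [mem_inter] at hxD ⊢
  exact ⟨hD x hx hxD.1 v hv, hE x hx hxD.2 v hv⟩

theorem Closed.union {P D E : Finset V} (hD : Closed G P D) (hE : Closed G P E) : Closed G P (D ∪ E) := by
  intro x hx hxD v hv
  rw [mem_union] at hxD ⊢
  rcases hxD with h | h
  · exact Or.inl (hD x hx h v hv)
  · exact Or.inr (hE x hx h v hv)

theorem w_eq (P D : Finset V) : ((P ∩ D) ∪ (univ \ (P ∪ D))).card = w P D := by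
  unfold w
  apply Finset.card_union_of_disjoint
  rw [Finset.disjoint_left]
  intro z hz hz2
  simp only [mem_inter, mem_sdiff, mem_univ, true_and, mem_union, not_or] at hz hz2
  exact hz2.1 hz.1

theorem indOf {P D : Finset V} (hP : Ind G P) (hc : Closed G P D) (hF : Ind G (FF G P \ D)) :
    Ind G ((P ∩ D) ∪ (univ \ (P ∪ D))) := by
  intro u hu v hv huv
  simp only [mem_inter, mem_sdiff, mem_univ, true_and, mem_union, not_or] at hu hv
  rcases hu with hu | hu <;> rcases hv with hv | hv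
  · exact hP u hu.1 v hv.1 huv
  · exact hv.2 (hc u hu.1 hu.2 v huv)
  · exact hu.2 (hc v hv.1 hv.2 u huv.symm)
  · refine hF u ?_ v ?_ huv
    · rw [mem_sdiff, mem_FF]
      exact ⟨⟨hu.1, v, hv.1, huv⟩, hu.2⟩
    · rw [mem_sdiff, mem_FF]
      exact ⟨⟨hv.1, u, hu.1, huv.symm⟩, hv.2⟩

theorem w_ub {a : ℕ} (h : Crit G a) {P D : Finset V} (hP : Ind G P) (hPa : P.card = a)
    (hc : Closed G P D) : w P D + a ≤ Fintype.card V := by
  have h1 := h.hall' (X := P ∩ D) (hP.mono Finset.inter_subset_left)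
  have h2 : (nbr G (P ∩ D)).card + (univ \ (P ∪ D)).card + P.card ≤ Fintype.card V := by
    rw [← Finset.card_univ, ← Finset.card_union_of_disjoint, ← Finset.card_union_of_disjoint]
    · exact Finset.card_le_card (Finset.subset_univ _)
    · rw [Finset.disjoint_left]
      intro z hz hz2
      rcases mem_union.mp hz with hz | hz
      · rw [mem_nbr] at hz
        obtain ⟨x, hx, hxz⟩ := hz
        exact hP x (mem_inter.mp hx).1 z hz2 hxz
      · rw [mem_sdiff, mem_union, not_or] at hz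
        exact hz.2.1 hz2
    · rw [Finset.disjoint_left]
      intro z hz hz2
      rw [mem_nbr] at hz
      obtain ⟨x, hx, hxz⟩ := hz
      rw [mem_inter] at hx
      rw [mem_sdiff, mem_union, not_or] at hz2
      exact hz2.2.2 (hc x hx.1 hx.2 z hxz)
  unfold w
  omega

variable (G) in
/-- closed sets with trace `Φ` on `FF` and largest possible weight -/
structure Cls (a : ℕ) (P Φ D : Finset V) : Prop where
  closed : Closed G P D
  tr : D ∩ FF G P = Φ
  wt : w P D = a

theorem w_le {a : ℕ} (h : Crit G a) {P D Φ : Finset V} (hP : Ind G P)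
    (hc : Closed G P D) (htr : D ∩ FF G P = Φ) (hΦ : Ind G (FF G P \ Φ)) : w P D ≤ a := by
  rw [← w_eq]
  apply h.ub
  apply indOf hP hc
  have : FF G P \ D = FF G P \ Φ := by
    rw [← htr]
    ext z
    simp only [mem_sdiff, mem_inter]
    tauto
  rw [this]
  exact hΦ

theorem Cls.both {a : ℕ} (h : Crit G a) {P D E Φ : Finset V} (hP : Ind G P)
    (hΦ : Ind G (FF G P \ Φ)) (hD : Cls G a P Φ D) (hE : Cls G a P Φ E) :
    Cls G a P Φ (D ∩ E) ∧ Cls G a P Φ (D ∪ E) := by
  have c1 := hD.closed.inter hE.closed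
  have c2 := hD.closed.union hE.closed
  have t1 : (D ∩ E) ∩ FF G P = Φ := by
    have : (D ∩ E) ∩ FF G P = (D ∩ FF G P) ∩ (E ∩ FF G P) := by ext; simp only [mem_inter]; tauto
    rw [this, hD.tr, hE.tr, Finset.inter_self]
  have t2 : (D ∪ E) ∩ FF G P = Φ := by
    rw [Finset.union_inter_distrib_right, hD.tr, hE.tr, Finset.union_self]
  have h1 := w_le h hP c1 t1 hΦ
  have h2 := w_le h hP c2 t2 hΦ
  have h3 := w_mod P D E
  rw [hD.wt, hE.wt] at h3
  exact ⟨⟨c1, t1, by omega⟩, ⟨c2, t2, by omega⟩⟩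

variable (G) in
/-- a set of the class in which `x` is the only neighbour of `y` -/
structure Piv (a : ℕ) (P Φ : Finset V) (y x : V) (D : Finset V) : Prop where
  cls : Cls G a P Φ D
  yD : y ∈ D
  xD : x ∈ D
  uniq : ∀ x' ∈ D, G.Adj y x' → x' = x

theorem w_erase {P D : Finset V} {y : V} (hyP : y ∉ P) (hy : y ∈ D) : w P (D.erase y) = w P D + 1 := by
  unfold w
  have e1 : P ∩ D.erase y = P ∩ D := by
    ext z
    simp only [mem_inter, mem_erase]
    constructor
    · rintro ⟨h1, _, h3⟩; exact ⟨h1, h3⟩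
    · rintro ⟨h1, h3⟩
      exact ⟨h1, fun h => hyP (h ▸ h1), h3⟩
  have e2 : univ \ (P ∪ D.erase y) = insert y (univ \ (P ∪ D)) := by
    ext z
    simp only [mem_sdiff, mem_univ, true_and, mem_union, mem_erase, not_or, not_and, mem_insert]
    constructor
    · rintro ⟨h1, h2⟩
      by_cases hz : z = y
      · exact Or.inl hz
      · exact Or.inr ⟨h1, h2 hz⟩
    · rintro (rfl | ⟨h1, h2⟩)
      · exact ⟨hyP, fun h => absurd rfl h⟩
      · exact ⟨h1, fun _ => h2⟩
  rw [e1, e2, Finset.card_insert_of_notMem]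
  · ring
  · simp [hy]

theorem w_erase' {P D : Finset V} {x : V} (hxP : x ∈ P) (hx : x ∈ D) : w P (D.erase x) + 1 = w P D := by
  unfold w
  have e1 : P ∩ D.erase x = (P ∩ D).erase x := by
    ext z
    simp only [mem_inter, mem_erase]
    tauto
  have e2 : univ \ (P ∪ D.erase x) = univ \ (P ∪ D) := by
    ext z
    simp only [mem_sdiff, mem_univ, true_and, mem_union, mem_erase, not_or, not_and]
    constructor
    · rintro ⟨h1, h2⟩
      exact ⟨h1, h2 (fun h => h1 (h ▸ hxP))⟩
    · rintro ⟨h1, h2⟩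
      exact ⟨h1, fun _ => h2⟩
  have hx2 : x ∈ P ∩ D := mem_inter.mpr ⟨hxP, hx⟩
  have := Finset.card_erase_add_one hx2
  rw [e1, e2]
  omega

/-- members of the class containing `y` contain `x` -/
theorem alpha {a : ℕ} (h : Crit G a) {P Φ D E : Finset V} (hP : Ind G P)
    (hΦ : Ind G (FF G P \ Φ)) {y x : V} (hyP : y ∉ P) (hyF : y ∉ FF G P)
    (hp : Piv G a P Φ y x D) (hE : Cls G a P Φ E) (hy : y ∈ E) : x ∈ E := by
  by_contra hx
  have hI := (Cls.both h hP hΦ hE hp.cls).1
  have hno : ∀ x' ∈ E ∩ D, ¬ G.Adj y x' := by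
    intro x' hx' hadj
    rw [mem_inter] at hx'
    have := hp.uniq x' hx'.2 hadj
    exact hx (this ▸ hx'.1)
  have hyI : y ∈ E ∩ D := mem_inter.mpr ⟨hy, hp.yD⟩
  have hc : Closed G P ((E ∩ D).erase y) := by
    intro z hz hzD v hv
    rw [mem_erase] at hzD ⊢
    refine ⟨?_, hI.closed z hz hzD.2 v hv⟩
    rintro rfl
    exact hno z hzD.2 hv.symm
  have ht : ((E ∩ D).erase y) ∩ FF G P = Φ := by
    rw [← hI.tr]
    ext z
    simp only [mem_inter, mem_erase]
    constructor
    · rintro ⟨⟨_, h1⟩, h2⟩; exact ⟨h1, h2⟩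
    · rintro ⟨h1, h2⟩
      exact ⟨⟨fun hz => hyF (hz ▸ h2), h1⟩, h2⟩
  have h1 := w_le h hP hc ht hΦ
  rw [w_erase hyP hyI, hI.wt] at h1
  omega

variable (G) in
/-- a pivot set which contains every member of the class avoiding `y` -/
structure Can (a : ℕ) (P Φ : Finset V) (y x : V) (D : Finset V) : Prop extends Piv G a P Φ y x D where
  max : ∀ E, Cls G a P Φ E → y ∉ E → E ⊆ D

/-- removing the pivot pair -/
theorem Piv.minus {a : ℕ} {P Φ D : Finset V} (hP : Ind G P) {y x : V} (hyP : y ∉ P)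
    (hyF : y ∉ FF G P) (hxP : x ∈ P) (hp : Piv G a P Φ y x D) :
    Cls G a P Φ ((D.erase x).erase y) := by
  have hxy : x ≠ y := fun h => hyP (h ▸ hxP)
  refine ⟨?_, ?_, ?_⟩
  · intro z hz hzD v hv
    rw [mem_erase, mem_erase] at hzD ⊢
    refine ⟨?_, ?_, hp.cls.closed z hz hzD.2.2 v hv⟩
    · rintro rfl
      exact hzD.2.1 (hp.uniq z hzD.2.2 hv.symm)
    · rintro rfl
      exact hP z hz v hxP hv
  · rw [← hp.cls.tr]
    ext z
    simp only [mem_inter, mem_erase]
    constructor
    · rintro ⟨⟨_, _, h1⟩, h2⟩; exact ⟨h1, h2⟩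
    · rintro ⟨h1, h2⟩
      refine ⟨⟨fun hz => hyF (hz ▸ h2), ?_, h1⟩, h2⟩
      rintro rfl
      exact (mem_FF.mp h2).1 hxP
  · have h1 : y ∈ D.erase x := mem_erase.mpr ⟨Ne.symm hxy, hp.yD⟩
    rw [w_erase hyP h1]
    have h2 := w_erase' hxP hp.xD
    rw [h2]
    exact hp.cls.wt

theorem exists_can {a : ℕ} (h : Crit G a) {P Φ D : Finset V} (hP : Ind G P)
    (hΦ : Ind G (FF G P \ Φ)) {y x : V} (hyP : y ∉ P) (hyF : y ∉ FF G P) (hxP : x ∈ P)
    (hxy : G.Adj y x) (hp : Piv G a P Φ y x D) : ∃ D', Can G a P Φ y x D' := by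
  classical
  have hm := hp.minus hP hyP hyF hxP
  obtain ⟨M, hM, hmax⟩ := Finset.exists_max_image (univ.filter fun E => Cls G a P Φ E ∧ y ∉ E)
    Finset.card ⟨_, by
      rw [mem_filter]
      exact ⟨mem_univ _, hm, by simp⟩⟩
  simp only [mem_filter, mem_univ, true_and] at hM hmax
  have hbig : ∀ E, Cls G a P Φ E → y ∉ E → E ⊆ M := by
    intro E hE hyE
    have h1 := (Cls.both h hP hΦ hM.1 hE).2
    have h2 := hmax (M ∪ E) ⟨h1, by rw [mem_union, not_or]; exact ⟨hM.2, hyE⟩⟩
    have h3 := Finset.eq_of_subset_of_card_le (Finset.subset_union_left (s₁ := M) (s₂ := E)) h2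
    rw [h3]
    exact Finset.subset_union_right
  have hxM : x ∉ M := fun hx => hM.2 (hM.1.closed x hxP hx y hxy.symm)
  have hDM : (D.erase x).erase y ⊆ M := hbig _ hm (by simp)
  -- M ∪ D is the required set
  have hU := (Cls.both h hP hΦ hM.1 hp.cls).2
  refine ⟨M ∪ D, ⟨hU, mem_union_right _ hp.yD, mem_union_right _ hp.xD, ?_⟩, ?_⟩
  · intro x' hx' hadj
    rcases mem_union.mp hx' with hx' | hx'
    · exfalso
      have hx'P : x' ∈ P := by
        by_contra hx'P
        exact hyF (mem_FF.mpr ⟨hyP, x', hx'P, hadj⟩)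
      exact hM.2 (hM.1.closed x' hx'P hx' y hadj.symm)
    · exact hp.uniq x' hx' hadj
  · intro E hE hyE
    exact (hbig E hE hyE).trans Finset.subset_union_left

/-- **antichains are short** -/
theorem antichain {a δ : ℕ} (h : Crit G a) (hδ : Fintype.card V ≤ 2 * a + δ) {P Φ : Finset V}
    (hP : Ind G P) (hΦ : Ind G (FF G P \ Φ)) (A : Finset V) (x : V → V) (D : V → Finset V)
    (hA : ∀ y ∈ A, y ∉ P ∧ y ∉ FF G P ∧ x y ∈ P ∧ Can G a P Φ y (x y) (D y) ∧
      ∃ x', G.Adj y x' ∧ x' ≠ x y)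
    (hanti : ∀ y ∈ A, ∀ y' ∈ A, y ≠ y' → ∃ E, Cls G a P Φ E ∧ y ∈ E ∧ y' ∉ E) :
    A.card + 1 ≤ 2 ^ δ := by
  classical
  rcases A.eq_empty_or_nonempty with rfl | ⟨y0, hy0⟩
  · simpa using Nat.one_le_two_pow
  -- for `y ∈ A`, a member of the class containing the pair of `y` and no other pair
  have hE : ∀ y ∈ A, ∀ B ⊆ A, y ∉ B → ∃ E, Cls G a P Φ E ∧ E ⊆ D y ∧ y ∈ E ∧ ∀ y' ∈ B, E ⊆ D y' ∧ x y' ∉ E := by
    intro y hy B
    induction B using Finset.induction_on with
    | empty =>
      intro _ _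
      exact ⟨D y, (hA y hy).2.2.2.1.cls, subset_rfl, (hA y hy).2.2.2.1.yD, by simp⟩
    | insert b B hb ih =>
      intro hBA hyB
      rw [mem_insert, not_or] at hyB
      obtain ⟨E, e1, e2, e3, e4⟩ := ih ((Finset.subset_insert _ _).trans hBA) hyB.2
      have hbA : b ∈ A := hBA (mem_insert_self _ _)
      obtain ⟨b1, b2, b3, b4, _⟩ := hA b hbA
      have hm := b4.toPiv.minus hP b1 b2 b3
      refine ⟨E ∩ ((D b).erase (x b)).erase b, (Cls.both h hP hΦ e1 hm).1,
        Finset.inter_subset_left.trans e2, ?_, ?_⟩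
      · rw [mem_inter, mem_erase, mem_erase]
        refine ⟨e3, hyB.1, ?_, ?_⟩
        · rintro rfl
          exact (hA _ hy).1 b3
        · obtain ⟨E', f1, f2, f3⟩ := hanti y hy b hbA hyB.1
          exact b4.max E' f1 f3 f2
      · intro y' hy'
        rcases Finset.mem_insert.mp hy' with rfl | hy'
        · refine ⟨?_, ?_⟩
          · exact Finset.inter_subset_right.trans ((Finset.erase_subset _ _).trans (Finset.erase_subset _ _))
          · simp
        · obtain ⟨g1, g2⟩ := e4 y' hy'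
          exact ⟨Finset.inter_subset_left.trans g1, fun hh => g2 (mem_inter.mp hh).1⟩
  have hE' : ∀ y, ∃ E, y ∈ A → (Cls G a P Φ E ∧ E ⊆ D y ∧ y ∈ E ∧ ∀ y' ∈ A.erase y, E ⊆ D y' ∧ x y' ∉ E) := by
    intro y
    by_cases hy : y ∈ A
    · obtain ⟨E, hE⟩ := hE y hy (A.erase y) (Finset.erase_subset _ _) (by simp)
      exact ⟨E, fun _ => hE⟩
    · exact ⟨∅, fun h => absurd h hy⟩
  choose E hE using hE'
  -- their union
  have hUn : ∀ B ⊆ A, B.Nonempty → Cls G a P Φ (B.biUnion E) := by
    intro B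
    induction B using Finset.induction_on with
    | empty => intro _ hne; exact absurd hne (by simp)
    | insert b B hb ih =>
      intro hBA _
      rcases B.eq_empty_or_nonempty with rfl | hne
      · rw [Finset.biUnion_insert, Finset.biUnion_empty, Finset.union_empty]
        exact (hE b (hBA (mem_insert_self _ _))).1
      · rw [Finset.biUnion_insert]
        exact (Cls.both h hP hΦ (hE b (hBA (mem_insert_self _ _))).1
          (ih ((Finset.subset_insert _ _).trans hBA) hne)).2
  have hD := hUn A subset_rfl ⟨y0, hy0⟩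
  set Ds := A.biUnion E with hDs
  have hyD : ∀ y ∈ A, y ∈ Ds := fun y hy => by
    rw [hDs, mem_biUnion]; exact ⟨y, hy, (hE y hy).2.2.1⟩
  have huniq : ∀ y ∈ A, ∀ x' ∈ Ds, G.Adj y x' → x' = x y := by
    intro y hy x' hx' hadj
    rw [hDs, mem_biUnion] at hx'
    obtain ⟨y', hy', hx'⟩ := hx'
    by_cases hyy : y' = y
    · subst hyy
      exact (hA _ hy).2.2.2.1.uniq x' ((hE _ hy).2.1 hx') hadj
    · obtain ⟨g1, g2⟩ := (hE y' hy').2.2.2 y (mem_erase.mpr ⟨Ne.symm hyy, hy⟩)
      exact (hA _ hy).2.2.2.1.uniq x' (g1 hx') hadj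
  have hx' : ∀ y, ∃ x', y ∈ A → (G.Adj y x' ∧ x' ≠ x y) := by
    intro y
    by_cases hy : y ∈ A
    · obtain ⟨x', h1⟩ := (hA y hy).2.2.2.2
      exact ⟨x', fun _ => h1⟩
    · exact ⟨y, fun h => absurd h hy⟩
  choose x' hx' using hx'
  have hx'P : ∀ y ∈ A, x' y ∈ P := by
    intro y hy
    by_contra hx'P
    exact (hA y hy).2.1 (mem_FF.mpr ⟨(hA y hy).1, x' y, hx'P, (hx' y hy).1⟩)
  have hF : Ind G (FF G P \ Ds) := by
    have : FF G P \ Ds = FF G P \ Φ := by
      rw [← hD.tr]
      ext z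
      simp only [mem_sdiff, mem_inter]
      tauto
    rw [this]; exact hΦ
  refine h.edges hδ (indOf hP hD.closed hF) (by rw [w_eq, hD.wt]) A (fun y => y) x' ?_ ?_
  · intro y hy
    refine ⟨(hx' y hy).1, ?_, ?_⟩
    · simp only [mem_union, mem_inter, mem_sdiff, mem_univ, true_and, not_or, not_and, not_not]
      exact ⟨fun hh => absurd hh (hA y hy).1, fun _ => hyD y hy⟩
    · simp only [mem_union, mem_inter, mem_sdiff, mem_univ, true_and, not_or, not_and, not_not]
      refine ⟨fun _ hh => ?_, fun hh => absurd (hx'P y hy) hh⟩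
      exact (hx' y hy).2 (huniq y hy _ hh (hx' y hy).1)
  · intro y hy y' hy' hne heq
    rw [Sym2.eq_iff] at heq
    rcases heq with heq | heq
    · exact hne heq.1
    · exact (hA y hy).1 (heq.1 ▸ hx'P y' hy')

/-- **chains in the same direction** -/
theorem chain {a : ℕ} (h : Crit G a) {P Φ₁ Φ₂ : Finset V} (hP : Ind G P)
    (hΦ₁ : Ind G (FF G P \ Φ₁)) (hΦ₂ : Ind G (FF G P \ Φ₂)) {y y' x₁ x₂ x₁' x₂' : V}
    {D₁ D₂ D₁' D₂' : Finset V} (hyP : y ∉ P) (hyF : y ∉ FF G P) (hx₁ : x₁ ∈ P)
    (hyP' : y' ∉ P) (hyF' : y' ∉ FF G P) (hx₁' : x₁' ∈ P) (hx₂' : x₂' ∈ P)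
    (c₁ : Can G a P Φ₁ y x₁ D₁) (c₂ : Can G a P Φ₂ y x₂ D₂)
    (c₁' : Can G a P Φ₁ y' x₁' D₁') (c₂' : Can G a P Φ₂ y' x₂' D₂')
    (had₁ : G.Adj y x₁) (hx12 : x₁ ≠ x₂) (hne : y ≠ y')
    (le₁ : ∀ E, Cls G a P Φ₁ E → y ∈ E → y' ∈ E) (le₂ : ∀ E, Cls G a P Φ₂ E → y ∈ E → y' ∈ E) :
    w P (D₁ ∩ D₂) < w P (D₁' ∩ D₂') := by
  -- nestedness
  have nest : ∀ (Φ D D' : Finset V) (x x' : V), Ind G (FF G P \ Φ) → x' ∈ P → Can G a P Φ y x D →
      Can G a P Φ y' x' D' → (∀ E, Cls G a P Φ E → y ∈ E → y' ∈ E) → D' ⊆ D ∧ y ∉ D' := by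
    intro Φ D D' x x' hΦ hx' c c' le
    have hm := c'.toPiv.minus hP hyP' hyF' hx'
    have hy : y ∉ (D'.erase x').erase y' := by
      intro hy
      have := le _ hm hy
      simp at this
    have hsub := c.max _ hm hy
    have hy'D : y' ∈ D := le _ c.cls c.yD
    have hx'D : x' ∈ D := alpha h hP hΦ hyP' hyF' c'.toPiv c.cls hy'D
    refine ⟨?_, ?_⟩
    · intro z hz
      by_cases h1 : z = y'
      · rw [h1]; exact hy'D
      by_cases h2 : z = x'
      · rw [h2]; exact hx'D
      exact hsub (mem_erase.mpr ⟨h1, mem_erase.mpr ⟨h2, hz⟩⟩)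
    · intro hyD'
      apply hy
      rw [mem_erase, mem_erase]
      refine ⟨hne, ?_, hyD'⟩
      rintro rfl
      exact hyP hx'
  obtain ⟨n1, n1'⟩ := nest Φ₁ D₁ D₁' x₁ x₁' hΦ₁ hx₁' c₁ c₁' le₁
  obtain ⟨n2, n2'⟩ := nest Φ₂ D₂ D₂' x₂ x₂' hΦ₂ hx₂' c₂ c₂' le₂
  -- first step
  have hx1D2 : x₁ ∉ D₂ := fun hh => hx12 (c₂.uniq x₁ hh had₁)
  have hx1D1' : x₁ ∉ D₁' := fun hh => n1' (c₁'.cls.closed x₁ hx₁ hh y had₁.symm)
  have s1 : w P (D₁' ∪ (D₁ ∩ D₂)) < a := by
    have hc : Closed G P (D₁' ∪ (D₁ ∩ D₂)) := c₁'.cls.closed.union (c₁.cls.closed.inter c₂.cls.closed)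
    have ht : (D₁' ∪ (D₁ ∩ D₂)) ∩ FF G P = Φ₁ := by
      have t1 := c₁'.cls.tr
      have t2 := c₁.cls.tr
      ext z
      rw [← t1]
      simp only [mem_inter, mem_union]
      constructor
      · rintro ⟨h1 | h1, h2⟩
        · exact ⟨h1, h2⟩
        · have : z ∈ D₁ ∩ FF G P := mem_inter.mpr ⟨h1.1, h2⟩
          rw [t2, ← t1] at this
          exact mem_inter.mp this
      · rintro ⟨h1, h2⟩
        exact ⟨Or.inl h1, h2⟩
    have hle := w_le h hP hc ht hΦ₁
    rcases Nat.lt_or_ge (w P (D₁' ∪ (D₁ ∩ D₂))) a with h1 | h1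
    · exact h1
    · exfalso
      have hcls : Cls G a P Φ₁ (D₁' ∪ (D₁ ∩ D₂)) := ⟨hc, ht, le_antisymm hle h1⟩
      have := alpha h hP hΦ₁ hyP hyF c₁.toPiv hcls
        (mem_union_right _ (mem_inter.mpr ⟨c₁.yD, c₂.yD⟩))
      rcases mem_union.mp this with h2 | h2
      · exact hx1D1' h2
      · exact hx1D2 (mem_inter.mp h2).2
  have e1 := w_mod P D₁' (D₁ ∩ D₂)
  have i1 : D₁' ∩ (D₁ ∩ D₂) = D₁' ∩ D₂ := by
    rw [← Finset.inter_assoc, Finset.inter_eq_left.mpr n1]
  rw [i1, c₁'.cls.wt] at e1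
  -- second step
  have s2 : w P (D₂' ∪ (D₁' ∩ D₂)) ≤ a := by
    have hc : Closed G P (D₂' ∪ (D₁' ∩ D₂)) := c₂'.cls.closed.union (c₁'.cls.closed.inter c₂.cls.closed)
    have ht : (D₂' ∪ (D₁' ∩ D₂)) ∩ FF G P = Φ₂ := by
      have t1 := c₂'.cls.tr
      have t2 := c₂.cls.tr
      ext z
      rw [← t1]
      simp only [mem_inter, mem_union]
      constructor
      · rintro ⟨h1 | h1, h2⟩
        · exact ⟨h1, h2⟩
        · have : z ∈ D₂ ∩ FF G P := mem_inter.mpr ⟨h1.2, h2⟩
          rw [t2, ← t1] at this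
          exact mem_inter.mp this
      · rintro ⟨h1, h2⟩
        exact ⟨Or.inl h1, h2⟩
    exact w_le h hP hc ht hΦ₂
  have e2 := w_mod P D₂' (D₁' ∩ D₂)
  have i2 : D₂' ∩ (D₁' ∩ D₂) = D₁' ∩ D₂' := by
    ext z
    simp only [mem_inter]
    constructor
    · rintro ⟨h1, h2, _⟩; exact ⟨h2, h1⟩
    · rintro ⟨h1, h2⟩; exact ⟨h2, h1, n2 h2⟩
  rw [i2, c₂'.cls.wt] at e2
  omega

/-- every edge at a vertex outside `P ∪ FF` gives a pivot -/
theorem exists_piv {a : ℕ} (h : Crit G a) {P : Finset V} (hP : Ind G P) {y x : V} (hyP : y ∉ P)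
    (hyF : y ∉ FF G P) (hyx : G.Adj y x) :
    x ∈ P ∧ ∃ Φ ⊆ FF G P, Ind G (FF G P \ Φ) ∧ ∃ D, Can G a P Φ y x D := by
  have hxP : x ∈ P := by
    by_contra hxP
    exact hyF (mem_FF.mpr ⟨hyP, x, hxP, hyx⟩)
  refine ⟨hxP, ?_⟩
  obtain ⟨R, r1, r2, r3, r4, r5⟩ := h.cr y x hyx
  set T := insert x R with hT
  set D := (P ∩ T) ∪ (univ \ (P ∪ T)) with hD
  have hmem : ∀ z, z ∈ D ↔ (z ∈ P ∧ z ∈ T) ∨ (z ∉ P ∧ z ∉ T) := by
    intro z
    simp only [hD, mem_union, mem_inter, mem_sdiff, mem_univ, true_and, not_or]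
  have hyT : y ∉ T := by
    rw [hT, mem_insert, not_or]
    exact ⟨hyx.ne, r1⟩
  have hΦ : Ind G (FF G P \ (D ∩ FF G P)) := by
    apply r5.mono
    intro z hz
    rw [mem_sdiff, mem_inter, not_and] at hz
    have h1 : z ∉ D := fun hh => hz.2 hh hz.1
    rw [hmem, not_or] at h1
    by_contra hzT
    exact h1.2 ⟨(mem_FF.mp hz.1).1, hzT⟩
  have hpiv : Piv G a P (D ∩ FF G P) y x D := by
    refine ⟨⟨?_, rfl, ?_⟩, ?_, ?_, ?_⟩
    · intro z hz hzD v hv
      rw [hmem] at hzD ⊢
      rcases hzD with h1 | h1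
      · right
        exact ⟨fun hvP => hP z hz v hvP hv, fun hvT => r5 z h1.2 v hvT hv⟩
      · exact absurd hz h1.1
    · have h1 : (P ∩ D) ∪ (univ \ (P ∪ D)) = T := by
        ext z
        simp only [mem_union, mem_inter, mem_sdiff, mem_univ, true_and, not_or]
        rw [hmem]
        tauto
      rw [← w_eq, h1, hT, Finset.card_insert_of_notMem r2]
      exact r3
    · rw [hmem]; exact Or.inr ⟨hyP, hyT⟩
    · rw [hmem]; exact Or.inl ⟨hxP, mem_insert_self _ _⟩
    · intro x' hx' hadj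
      rw [hmem] at hx'
      rcases hx' with h1 | h1
      · rcases Finset.mem_insert.mp h1.2 with h2 | h2
        · exact h2
        · exact absurd hadj (r4 y (mem_insert_self _ _) x' (mem_insert_of_mem h2))
      · exact absurd (mem_FF.mpr ⟨hyP, x', h1.1, hadj⟩) hyF
  obtain ⟨D', hD'⟩ := exists_can h hP hΦ hyP hyF hxP hyx hpiv
  exact ⟨_, Finset.inter_subset_right, hΦ, D', hD'⟩

theorem card_FF_le {a δ : ℕ} (h : Crit G a) (hδ : Fintype.card V ≤ 2 * a + δ) {P : Finset V}
    (hP : Ind G P) (hPa : P.card = a) : (FF G P).card ≤ 2 * 2 ^ δ := by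
  have hu : ∀ v, ∃ u, v ∈ FF G P → (u ∉ P ∧ G.Adj v u) := by
    intro v
    by_cases hv : v ∈ FF G P
    · obtain ⟨_, u, h1, h2⟩ := mem_FF.mp hv
      exact ⟨u, fun _ => ⟨h1, h2⟩⟩
    · exact ⟨v, fun h => absurd h hv⟩
  choose u hu using hu
  set J : Finset (Sym2 V) := (FF G P).image fun v => s(v, u v) with hJ
  have hrep : ∀ e : Sym2 V, ∃ p : V × V, s(p.1, p.2) = e := by
    intro e
    induction e using Sym2.ind with
    | _ x y => exact ⟨(x, y), rfl⟩
  choose rep hrep using hrep
  have h1 := h.edges hδ hP hPa J (fun e => (rep e).1) (fun e => (rep e).2) (by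
    intro e he
    rw [hJ, mem_image] at he
    obtain ⟨v, hv, rfl⟩ := he
    obtain ⟨h1, h2⟩ := hu v hv
    have h3 := (mem_FF.mp hv).1
    have h4 := hrep (s(v, u v))
    rw [Sym2.eq_iff] at h4
    rcases h4 with ⟨h5, h6⟩ | ⟨h5, h6⟩
    · simp only [h5, h6]
      exact ⟨h2, h3, h1⟩
    · simp only [h5, h6]
      exact ⟨h2.symm, h1, h3⟩) (by
    intro e _ e' _ hne heq
    rw [hrep, hrep] at heq
    exact hne heq)
  have h2 : FF G P ⊆ J.biUnion fun e => {(rep e).1, (rep e).2} := by
    intro v hv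
    rw [mem_biUnion]
    refine ⟨s(v, u v), mem_image.mpr ⟨v, hv, rfl⟩, ?_⟩
    have h4 := hrep (s(v, u v))
    rw [Sym2.eq_iff] at h4
    rw [mem_insert, mem_singleton]
    rcases h4 with ⟨h5, h6⟩ | ⟨h5, h6⟩
    · exact Or.inl h5.symm
    · exact Or.inr h6.symm
  have h3 := Finset.card_le_card h2
  have h4 : (J.biUnion fun e => ({(rep e).1, (rep e).2} : Finset V)).card ≤ J.card * 2 :=
    Finset.card_biUnion_le_card_mul _ _ _ (fun e _ => Finset.card_le_two)
  omega

/-- **Theorem.** Critical graphs of bounded defect avoiding any three vertices are bounded. -/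
theorem bounded (δ : ℕ) : ∃ N : ℕ, ∀ (V : Type) [Fintype V] [DecidableEq V] (G : SimpleGraph V) (a : ℕ),
    Crit G a → Fintype.card V ≤ 2 * a + δ → Fintype.card V ≤ N := by
  classical
  set L := 4 ^ (3 * 2 ^ δ) with hL
  set f := 2 * 2 ^ δ with hf
  refine ⟨2 * (f + (2 ^ f) ^ 3 * ((2 * δ + 1) * ((2 * δ + 1) * (2 * δ + 1))) * L), ?_⟩
  intro V _ _ G a h hδ
  obtain ⟨P, hP, hPa, _⟩ := h.av ∅ (by simp)
  have hF := card_FF_le h hδ hP hPa
  set F := FF G P with hFdef
  set Q : Finset V := univ \ (P ∪ F) with hQ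
  have haP : 2 * a ≤ Fintype.card V := by
    have h1 := h.hall' hP
    have h2 : (nbr G P).card + P.card ≤ Fintype.card V := by
      rw [← Finset.card_univ, ← Finset.card_union_of_disjoint]
      · exact Finset.card_le_card (Finset.subset_univ _)
      · rw [Finset.disjoint_left]
        intro z hz hz2
        rw [mem_nbr] at hz
        obtain ⟨x, hx, hxz⟩ := hz
        exact hP x hx z hz2 hxz
    omega
  have hcard : Fintype.card V ≤ a + (F.card + Q.card) := by
    have h1 : (univ : Finset V) ⊆ P ∪ (F ∪ Q) := by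
      intro z _
      simp only [hQ, mem_union, mem_sdiff, mem_univ, true_and]
      tauto
    have h2 := Finset.card_le_card h1
    have h3 := Finset.card_union_le P (F ∪ Q)
    have h4 := Finset.card_union_le F Q
    rw [Finset.card_univ] at h2
    omega
  -- the data of a vertex of `Q`
  have hdata : ∀ y, ∃ (x : Fin 3 → V) (Φ D : Fin 3 → Finset V), y ∈ Q → ((∀ i, G.Adj y (x i) ∧ x i ∈ P ∧
      Φ i ⊆ F ∧ Ind G (F \ Φ i) ∧ Can G a P (Φ i) y (x i) (D i)) ∧ Function.Injective x) := by
    intro y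
    by_cases hy : y ∈ Q
    · simp only [hQ, mem_sdiff, mem_univ, true_and, mem_union, not_or] at hy
      obtain ⟨x1, x2, x3, a1, a2, a3, n12, n13, n23⟩ := h.deg y
      obtain ⟨x, hx0, hx1, hx2⟩ : ∃ x : Fin 3 → V, x 0 = x1 ∧ x 1 = x2 ∧ x 2 = x3 :=
        ⟨![x1, x2, x3], rfl, rfl, rfl⟩
      have hadj : ∀ i, G.Adj y (x i) := by
        intro i
        fin_cases i
        · simpa [hx0] using a1
        · simpa [hx1] using a2
        · simpa [hx2] using a3
      have hpp := fun i => exists_piv h hP hy.1 hy.2 (hadj i)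
      choose p1 Φ p2 p3 D p4 using hpp
      refine ⟨x, Φ, D, fun _ => ⟨fun i => ⟨hadj i, p1 i, p2 i, p3 i, p4 i⟩, ?_⟩⟩
      intro i j hij
      fin_cases i <;> fin_cases j <;> simp_all
    · exact ⟨fun _ => y, fun _ => ∅, fun _ => ∅, fun hh => absurd hh hy⟩
  choose x Φ D hdata using hdata
  by_contra hcon
  push Not at hcon
  have hQbig : (2 ^ f) ^ 3 * ((2 * δ + 1) * ((2 * δ + 1) * (2 * δ + 1))) * L < Q.card := by omega
  -- the type of a vertex
  let ty : V → (Fin 3 → Finset V) × (ℕ × (ℕ × ℕ)) := fun y =>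
    (Φ y, (w P (D y 0 ∩ D y 1), (w P (D y 0 ∩ D y 2), w P (D y 1 ∩ D y 2))))
  set c := Fintype.card V - a with hc
  let I : Finset ℕ := Finset.Icc (2 * a - c) c
  have hI : I.card ≤ 2 * δ + 1 := by
    simp only [I, Nat.card_Icc]
    omega
  let target : Finset ((Fin 3 → Finset V) × (ℕ × (ℕ × ℕ))) :=
    (Fintype.piFinset fun _ => F.powerset) ×ˢ (I ×ˢ (I ×ˢ I))
  have htarget : target.card ≤ (2 ^ f) ^ 3 * ((2 * δ + 1) * ((2 * δ + 1) * (2 * δ + 1))) := by
    simp only [target, Finset.card_product, Fintype.card_piFinset, Finset.card_powerset,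
      Finset.prod_const, Finset.card_univ, Fintype.card_fin]
    have h1 : 2 ^ F.card ≤ 2 ^ f := Nat.pow_le_pow_right (by norm_num) hF
    gcongr
  have hval : ∀ y ∈ Q, ∀ i j, w P (D y i ∩ D y j) ∈ I := by
    intro y hy i j
    obtain ⟨hd, _⟩ := hdata y hy
    have ci := (hd i).2.2.2.2.cls
    have cj := (hd j).2.2.2.2.cls
    have h1 := w_mod P (D y i) (D y j)
    have h2 := w_ub h hP hPa (ci.closed.inter cj.closed)
    have h3 := w_ub h hP hPa (ci.closed.union cj.closed)
    rw [ci.wt, cj.wt] at h1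
    simp only [I, mem_Icc]
    omega
  have hmaps : ∀ y ∈ Q, ty y ∈ target := by
    intro y hy
    obtain ⟨hd, _⟩ := hdata y hy
    simp only [target, ty, mem_product, Fintype.mem_piFinset, mem_powerset]
    exact ⟨fun i => (hd i).2.2.1, hval y hy 0 1, hval y hy 0 2, hval y hy 1 2⟩
  obtain ⟨τ, _, hτ⟩ := Finset.exists_lt_card_fiber_of_mul_lt_card_of_maps_to hmaps
    (n := L) (lt_of_le_of_lt (Nat.mul_le_mul_right _ htarget) hQbig)
  set Y := Q.filter fun y => ty y = τ with hY
  have hYQ : ∀ y ∈ Y, y ∈ Q := fun y hy => (mem_filter.mp hy).1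
  have hPF : ∀ y ∈ Q, y ∉ P ∧ y ∉ F := by
    intro y hy
    simpa only [hQ, mem_sdiff, mem_univ, true_and, mem_union, not_or] using hy
  have hsame : ∀ y ∈ Y, ∀ y' ∈ Y, Φ y = Φ y' ∧ w P (D y 0 ∩ D y 1) = w P (D y' 0 ∩ D y' 1) ∧
      w P (D y 0 ∩ D y 2) = w P (D y' 0 ∩ D y' 2) ∧ w P (D y 1 ∩ D y 2) = w P (D y' 1 ∩ D y' 2) := by
    intro y hy y' hy'
    have h1 := (mem_filter.mp hy).2.trans (mem_filter.mp hy').2.symm
    simp only [ty, Prod.mk.injEq] at h1
    exact h1
  -- comparison relation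
  let le : Fin 3 → V → V → Prop := fun i y y' => ∀ E, Cls G a P (Φ y i) E → y ∈ E → y' ∈ E
  have hchain : ∀ y ∈ Y, ∀ y' ∈ Y, y ≠ y' → ∀ i j, i ≠ j → le i y y' → le j y y' →
      w P (D y i ∩ D y j) < w P (D y' i ∩ D y' j) := by
    intro y hy y' hy' hne i j hij hi hj
    obtain ⟨hd, hinj⟩ := hdata y (hYQ y hy)
    obtain ⟨hd', _⟩ := hdata y' (hYQ y' hy')
    obtain ⟨q1, q2⟩ := hPF y (hYQ y hy)
    obtain ⟨q1', q2'⟩ := hPF y' (hYQ y' hy')
    have hs := (hsame y hy y' hy').1
    have ci' := (hd' i).2.2.2.2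
    have cj' := (hd' j).2.2.2.2
    rw [← hs] at ci' cj'
    exact chain h hP (hd i).2.2.2.1 (hd j).2.2.2.1 q1 q2 (hd i).2.1 q1' q2' (hd' i).2.1 (hd' j).2.1
      (hd i).2.2.2.2 (hd j).2.2.2.2 ci' cj' (hd i).1 (fun hh => hij (hinj hh)) hne hi hj
  have hinc : ∀ y ∈ Y, ∀ y' ∈ Y, y ≠ y' → ∃ i, ¬ le i y y' ∧ ¬ le i y' y := by
    intro y hy y' hy' hne
    by_contra hcon
    push Not at hcon
    have hor : ∀ i, le i y y' ∨ le i y' y := by
      intro i
      by_cases h1 : le i y y'
      · exact Or.inl h1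
      · exact Or.inr (hcon i h1)
    obtain ⟨_, s1, s2, s3⟩ := hsame y hy y' hy'
    have hc1 := hchain y hy y' hy' hne
    have hc2 := hchain y' hy' y hy (Ne.symm hne)
    rcases hor 0 with a0 | a0 <;> rcases hor 1 with a1 | a1 <;> rcases hor 2 with a2 | a2
    · have := hc1 0 1 (by decide) a0 a1; omega
    · have := hc1 0 1 (by decide) a0 a1; omega
    · have := hc1 0 2 (by decide) a0 a2; omega
    · have := hc2 1 2 (by decide) a1 a2; omega
    · have := hc1 1 2 (by decide) a1 a2; omega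
    · have := hc2 0 2 (by decide) a0 a2; omega
    · have := hc2 0 1 (by decide) a0 a1; omega
    · have := hc2 0 1 (by decide) a0 a1; omega
  have hcol : ∀ y y', ∃ i, y ∈ Y → y' ∈ Y → y ≠ y' → ¬ le i y y' ∧ ¬ le i y' y := by
    intro y y'
    by_cases hh : y ∈ Y ∧ y' ∈ Y ∧ y ≠ y'
    · obtain ⟨i, hi⟩ := hinc y hh.1 y' hh.2.1 hh.2.2
      exact ⟨i, fun _ _ _ => hi⟩
    · exact ⟨0, fun h1 h2 h3 => absurd ⟨h1, h2, h3⟩ hh⟩
  choose col hcol using hcol
  obtain ⟨i, l, hl1, hl2, hl3⟩ := ramsey col (2 ^ δ) Y hτ.le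
  have hnodup : l.Nodup := hl3.imp (fun hh => hh.1)
  have hpair : l.Pairwise (fun y y' => ¬ le i y y' ∧ ¬ le i y' y) := by
    refine List.Pairwise.imp_of_mem ?_ hl3
    intro y y' hy hy' hh
    have := hcol y y' (hl2 y hy) (hl2 y' hy') hh.1
    rw [hh.2] at this
    exact this
  have hall : ∀ y ∈ l, ∀ y' ∈ l, y ≠ y' → ¬ le i y y' ∧ ¬ le i y' y := by
    intro y hy y' hy' hne
    have : Std.Symm (fun y y' => ¬ le i y y' ∧ ¬ le i y' y) := ⟨fun a b hab => ⟨hab.2, hab.1⟩⟩
    exact hpair.forall hy hy' hne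
  have hne : l ≠ [] := by
    rintro rfl
    simp only [List.length_nil] at hl1
    have : 0 < 2 ^ δ := by positivity
    omega
  obtain ⟨y0, hy0⟩ := List.exists_mem_of_ne_nil l hne
  obtain ⟨hd0, _⟩ := hdata y0 (hYQ y0 (hl2 y0 hy0))
  have hA := antichain h hδ hP (hd0 i).2.2.2.1 l.toFinset (fun y => x y i) (fun y => D y i) (by
    intro y hy
    rw [List.mem_toFinset] at hy
    have hyY := hl2 y hy
    obtain ⟨hd, hinj⟩ := hdata y (hYQ y hyY)
    obtain ⟨q1, q2⟩ := hPF y (hYQ y hyY)
    have hs := (hsame y hyY y0 (hl2 y0 hy0)).1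
    have cc := (hd i).2.2.2.2
    rw [hs] at cc
    refine ⟨q1, q2, (hd i).2.1, cc, ?_⟩
    obtain ⟨j, hj⟩ : ∃ j : Fin 3, j ≠ i := exists_ne i
    exact ⟨x y j, (hd j).1, fun hh => hj (hinj hh)⟩) (by
    intro y hy y' hy' hne
    rw [List.mem_toFinset] at hy hy'
    have h1 := (hall y hy y' hy' hne).1
    simp only [le] at h1
    push Not at h1
    obtain ⟨E, e1, e2, e3⟩ := h1
    have hs := (hsame y (hl2 y hy) y0 (hl2 y0 hy0)).1
    rw [hs] at e1
    exact ⟨E, e1, e2, e3⟩)
  rw [List.toFinset_card_of_nodup hnodup] at hA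
  omega

end Crit

/-! ### From stable graphs to critical graphs -/

section Reduction

/-- deleting edges as long as the independence number does not grow gives a critical graph -/
theorem stable_bounded (δ : ℕ) : ∃ N : ℕ, ∀ (V : Type) [Fintype V] (G : SimpleGraph V) (a : ℕ),
    (∀ S : Finset V, S.card = 3 → ∃ T, Ind G T ∧ T.card = a ∧ Disjoint T S) →
    (∀ T, Ind G T → T.card ≤ a) → Fintype.card V ≤ 2 * a + δ → Fintype.card V ≤ N := by
  classical
  obtain ⟨N, hN⟩ := bounded δ
  refine ⟨max N 3, ?_⟩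
  intro V _ G a hav hub hδ
  by_cases h3 : Fintype.card V < 3
  · omega
  push Not at h3
  obtain ⟨H, hH⟩ := exists_minimal_of_wellFoundedLT
    (fun H : SimpleGraph V => H ≤ G ∧ ∀ T, Ind H T → T.card ≤ a) ⟨G, le_refl _, hub⟩
  have hHG := hH.prop.1
  have hHub := hH.prop.2
  have hcrit : Crit H a := by
    refine ⟨hHub, ?_, ?_⟩
    · intro S hS
      obtain ⟨S', hS', hS'c⟩ := Finset.exists_superset_card_eq hS (by rw [← Finset.card_univ] at h3; exact h3)
      obtain ⟨T, hT, hTa, hd⟩ := hav S' hS'c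
      exact ⟨T, fun x hx y hy hxy => hT x hx y hy (hHG hxy), hTa,
        Finset.disjoint_of_subset_right hS' hd⟩
    · intro x y hxy
      have hlt : H.deleteEdges {s(x, y)} < H := by
        refine lt_of_le_of_ne (SimpleGraph.deleteEdges_le _) ?_
        intro heq
        have : (H.deleteEdges {s(x, y)}).Adj x y := by rw [heq]; exact hxy
        rw [SimpleGraph.deleteEdges_adj] at this
        exact this.2 rfl
      have hnot : ¬ (H.deleteEdges {s(x, y)} ≤ G ∧ ∀ T, Ind (H.deleteEdges {s(x, y)}) T → T.card ≤ a) :=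
        hH.not_prop_of_lt hlt
      push Not at hnot
      obtain ⟨T, hT, hTa⟩ := hnot (hlt.le.trans hHG)
      have hadj : ∀ u ∈ T, ∀ v ∈ T, H.Adj u v → s(u, v) = s(x, y) := by
        intro u hu v hv huv
        by_contra hne
        apply hT u hu v hv
        rw [SimpleGraph.deleteEdges_adj]
        exact ⟨huv, hne⟩
      have hxT : x ∈ T := by
        by_contra hxT
        have : Ind H T := by
          intro u hu v hv huv
          have := hadj u hu v hv huv
          rw [Sym2.eq_iff] at this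
          rcases this with h1 | h1
          · exact hxT (h1.1 ▸ hu)
          · exact hxT (h1.2 ▸ hv)
        have := hHub T this
        omega
      have hyT : y ∈ T := by
        by_contra hyT
        have : Ind H T := by
          intro u hu v hv huv
          have := hadj u hu v hv huv
          rw [Sym2.eq_iff] at this
          rcases this with h1 | h1
          · exact hyT (h1.2 ▸ hv)
          · exact hyT (h1.1 ▸ hu)
        have := hHub T this
        omega
      have hxe : Ind H (T.erase x) := by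
        intro u hu v hv huv
        have := hadj u (mem_of_mem_erase hu) v (mem_of_mem_erase hv) huv
        rw [Sym2.eq_iff] at this
        rcases this with h1 | h1
        · exact (mem_erase.mp hu).1 h1.1
        · exact (mem_erase.mp hv).1 h1.2
      have hye : Ind H (T.erase y) := by
        intro u hu v hv huv
        have := hadj u (mem_of_mem_erase hu) v (mem_of_mem_erase hv) huv
        rw [Sym2.eq_iff] at this
        rcases this with h1 | h1
        · exact (mem_erase.mp hv).1 h1.2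
        · exact (mem_erase.mp hu).1 h1.1
      have h1 := hHub _ hxe
      rw [Finset.card_erase_of_mem hxT] at h1
      have hyx : y ∈ T.erase x := mem_erase.mpr ⟨hxy.ne', hyT⟩
      have hxy' : x ∈ T.erase y := mem_erase.mpr ⟨hxy.ne, hxT⟩
      refine ⟨(T.erase x).erase y, by simp, by simp, ?_, ?_, ?_⟩
      · rw [Finset.card_erase_of_mem hyx, Finset.card_erase_of_mem hxT]
        have : 2 ≤ T.card := by
          rw [← Finset.card_pair hxy.ne]
          apply Finset.card_le_card
          intro z hz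
          rw [mem_insert, mem_singleton] at hz
          rcases hz with rfl | rfl <;> assumption
        omega
      · rw [Finset.erase_right_comm, Finset.insert_erase hxy']
        exact hye
      · rw [Finset.insert_erase hyx]
        exact hxe
  exact (hN V H a hcrit hδ).trans (le_max_left _ _)

/-- reformulation of stability with sets of vertices of the whole graph -/
theorem exists_of_stable {V : Type} [Fintype V] [DecidableEq V] (G : SimpleGraph V) (S : Finset V)
    (h : G.indepNum ≤ (G.induce {v | v ∉ S}).indepNum) :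
    ∃ T : Finset V, Ind G T ∧ T.card = G.indepNum ∧ Disjoint T S := by
  obtain ⟨T', hT'⟩ := (G.induce {v | v ∉ S}).exists_isNIndepSet_indepNum
  rw [← hT'.card_eq] at h
  obtain ⟨T, hT, hTc⟩ := Finset.exists_subset_card_eq h
  refine ⟨T.map (Function.Embedding.subtype _), ?_, by rw [Finset.card_map]; exact hTc, ?_⟩
  · intro x hx y hy hxy
    rw [mem_map] at hx hy
    obtain ⟨x', hx', rfl⟩ := hx
    obtain ⟨y', hy', rfl⟩ := hy
    have := hT'.isIndepSet (hT hx') (hT hy') (by
      rintro rfl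
      exact G.irrefl hxy)
    exact this hxy
  · rw [Finset.disjoint_left]
    intro x hx hxS
    rw [mem_map] at hx
    obtain ⟨x', _, rfl⟩ := hx
    exact x'.2 hxS

theorem card_le_of_ind {V : Type} [Fintype V] (G : SimpleGraph V) (T : Finset V)
    (hT : Ind G T) : T.card ≤ G.indepNum := by
  apply SimpleGraph.IsIndepSet.card_le_indepNum
  intro x hx y hy _
  exact hT x hx y hy

end Reduction

end Pool.Agent.V11130.Stable
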